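import Mathlib

set_option autoImplicit false

open MeasureTheory Set

namespace Pool.Agent.Work.MP_fe1501_h42

/-- `√2` is badly approximable -/
theorem sqrt_two_far (k : ℕ) (hk : k ≠ 0) (n : ℤ) (h : |(k : ℝ) * √2 - n| ≤ 1 / 2) :
    1 ≤ 4 * (k : ℝ) * |(k : ℝ) * √2 - n| := by
  have h2 : √2 ^ 2 = (2 : ℝ) := Real.sq_sqrt (by norm_num)
  have hs1 : √2 < (3 : ℝ) / 2 := by
    rw [Real.sqrt_lt' (by norm_num)]; norm_num
  have hs0 : 0 < √2 := by positivity
  have hk1 : (1 : ℝ) ≤ k := by exact_mod_cast Nat.one_le_iff_ne_zero.2 hk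
  have hne : (2 * (k : ℤ) ^ 2 - n ^ 2) ≠ 0 := by
    intro h0
    have h1 : (n : ℝ) ^ 2 = ((k : ℝ) * √2) ^ 2 := by
      rw [mul_pow, h2]
      have : ((2 * (k : ℤ) ^ 2 - n ^ 2 : ℤ) : ℝ) = 0 := by rw [h0]; simp
      push_cast at this
      linarith
    have hirr : Irrational ((k : ℝ) * √2) := irrational_sqrt_two.natCast_mul hk
    rcases sq_eq_sq_iff_eq_or_eq_neg.1 h1 with h3 | h3
    · exact hirr ⟨n, by rw [← h3]; simp⟩
    · exact hirr ⟨-n, by push_cast; linarith⟩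
  have habs : (1 : ℝ) ≤ |2 * (k : ℝ) ^ 2 - n ^ 2| := by
    have h3 : (1 : ℤ) ≤ |2 * (k : ℤ) ^ 2 - n ^ 2| := Int.one_le_abs hne
    have h4 : ((|2 * (k : ℤ) ^ 2 - n ^ 2| : ℤ) : ℝ) = |2 * (k : ℝ) ^ 2 - n ^ 2| := by push_cast; rfl
    rw [← h4]
    exact_mod_cast h3
  have hfac : 2 * (k : ℝ) ^ 2 - n ^ 2 = ((k : ℝ) * √2 - n) * ((k : ℝ) * √2 + n) := by
    linear_combination (-(k : ℝ) ^ 2) * h2
  rw [hfac, abs_mul] at habs
  have hb : |(k : ℝ) * √2 + n| ≤ 4 * k := by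
    rw [abs_le] at h ⊢
    constructor <;> nlinarith [h.1, h.2]
  calc (1 : ℝ) ≤ |(k : ℝ) * √2 - n| * |(k : ℝ) * √2 + n| := habs
    _ ≤ |(k : ℝ) * √2 - n| * (4 * k) := mul_le_mul_of_nonneg_left hb (abs_nonneg _)
    _ = _ := by ring

theorem small_div (k : ℕ) (hk : k ≠ 0) :
    1 ≤ 2 * (k : ℝ) ^ 2 * (1 - Real.cos (2 * Real.pi * k * √2)) := by
  set y : ℝ := (k : ℝ) * √2 with hy
  have h1 : |y - round y| ≤ 1 / 2 := abs_sub_round y
  have h2 := sqrt_two_far k hk (round y) h1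
  have h3 : Real.cos (2 * Real.pi * k * √2) = Real.cos (2 * Real.pi * (y - round y)) := by
    rw [show 2 * Real.pi * (y - round y) = 2 * Real.pi * k * √2 - (round y : ℤ) * (2 * Real.pi) by
      rw [hy]; ring, Real.cos_sub_int_mul_two_pi]
  have hpi := Real.pi_pos
  have h4 : |2 * Real.pi * (y - round y)| ≤ Real.pi := by
    rw [abs_mul, abs_of_pos (by positivity)]
    nlinarith
  have h5 := Real.cos_le_one_sub_mul_cos_sq h4
  have h6 : 2 / Real.pi ^ 2 * (2 * Real.pi * (y - round y)) ^ 2 = 8 * (y - round y) ^ 2 := by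
    field_simp
    ring
  rw [h6] at h5
  rw [h3]
  have h7 : 1 ≤ (4 * (k : ℝ) * |y - round y|) ^ 2 := one_le_pow₀ h2
  rw [mul_pow, sq_abs] at h7
  have hk0 : (0 : ℝ) ≤ (k : ℝ) ^ 2 := by positivity
  nlinarith

/-- the coefficients of the kernel -/
noncomputable def co (k : ℕ) : ℝ := 1 / ((k : ℝ) ^ 4 * (1 - Real.cos (2 * Real.pi * k * √2)))

theorem co_nonneg (k : ℕ) : 0 ≤ co k := by
  unfold co
  have := Real.cos_le_one (2 * Real.pi * k * √2)
  apply one_div_nonneg.2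
  apply mul_nonneg (by positivity)
  linarith

theorem co_le (k : ℕ) : co k ≤ 2 * (1 / (k : ℝ) ^ 2) := by
  by_cases hk : k = 0
  · subst hk
    simp [co]
  · have h1 := small_div k hk
    have hk1 : (0 : ℝ) < k := by exact_mod_cast Nat.pos_of_ne_zero hk
    unfold co
    have h2 : 0 < 1 - Real.cos (2 * Real.pi * k * √2) := by
      by_contra h3
      push Not at h3
      have : 2 * (k : ℝ) ^ 2 * (1 - Real.cos (2 * Real.pi * k * √2)) ≤ 0 :=
        mul_nonpos_of_nonneg_of_nonpos (by positivity) h3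
      linarith
    rw [← mul_div_assoc, mul_one, div_le_div_iff₀ (by positivity) (by positivity)]
    nlinarith [pow_pos hk1 2, mul_le_mul_of_nonneg_left h1 (by positivity : (0:ℝ) ≤ (k : ℝ) ^ 2)]

theorem co_mul (k : ℕ) (hk : k ≠ 0) : co k * (1 - Real.cos (2 * Real.pi * k * √2)) = 1 / (k : ℝ) ^ 4 := by
  have h1 := small_div k hk
  have hk1 : (0 : ℝ) < k := by exact_mod_cast Nat.pos_of_ne_zero hk
  have h2 : 1 - Real.cos (2 * Real.pi * k * √2) ≠ 0 := by
    intro h3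
    rw [h3, mul_zero] at h1
    linarith
  unfold co
  rw [div_mul_eq_mul_div, one_mul]
  rw [div_eq_div_iff (mul_ne_zero (by positivity) h2) (by positivity)]
  ring

/-- the kernel -/
noncomputable def Ker (x : ℝ) : ℝ := ∑' k : ℕ, co k * Real.cos (2 * Real.pi * k * x)

theorem summable_bd : Summable (fun k : ℕ => 2 * (1 / (k : ℝ) ^ 2)) :=
  (Real.summable_one_div_nat_pow.2 (by norm_num)).mul_left 2

theorem term_le (k : ℕ) (x : ℝ) : ‖co k * Real.cos (2 * Real.pi * k * x)‖ ≤ 2 * (1 / (k : ℝ) ^ 2) := by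
  rw [norm_mul, Real.norm_eq_abs, Real.norm_eq_abs, abs_of_nonneg (co_nonneg k)]
  calc co k * |Real.cos (2 * Real.pi * k * x)| ≤ co k * 1 :=
        mul_le_mul_of_nonneg_left (Real.abs_cos_le_one _) (co_nonneg k)
    _ ≤ _ := by rw [mul_one]; exact co_le k

theorem Ker_hasSum (x : ℝ) : HasSum (fun k : ℕ => co k * Real.cos (2 * Real.pi * k * x)) (Ker x) :=
  (Summable.of_norm_bounded summable_bd (fun k => term_le k x)).hasSum

theorem Ker_cont : Continuous Ker := by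
  apply continuous_tsum _ summable_bd term_le
  intro k
  fun_prop

theorem Ker_per : Function.Periodic Ker 1 := by
  intro x
  unfold Ker
  congr 1
  ext k
  congr 1
  rw [show 2 * Real.pi * k * (x + 1) = 2 * Real.pi * k * x + k * (2 * Real.pi) by ring]
  exact Real.cos_add_nat_mul_two_pi _ _

/-- the polynomial `-(π^4/3) B_4` -/
noncomputable def P4 (x : ℝ) : ℝ := -(Real.pi ^ 4 / 3) * (x ^ 4 - 2 * x ^ 3 + x ^ 2 - 1 / 30)

theorem hasSum_P4 {x : ℝ} (hx : x ∈ Icc (0 : ℝ) 1) :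
    HasSum (fun k : ℕ => 1 / (k : ℝ) ^ 4 * Real.cos (2 * Real.pi * k * x)) (P4 x) := by
  have h := hasSum_one_div_nat_pow_mul_cos (k := 2) (by norm_num) hx
  convert h using 1
  unfold P4
  simp_rw [Polynomial.bernoulli, Finset.sum_range_succ, Polynomial.map_add, Polynomial.eval_add,
    Polynomial.map_monomial, Polynomial.eval_monomial]
  rw [Finset.sum_range_zero, Polynomial.map_zero, Polynomial.eval_zero, zero_add, _root_.bernoulli_one]
  rw [bernoulli_eq_bernoulli'_of_ne_one zero_ne_one, bernoulli'_zero,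
    bernoulli_eq_bernoulli'_of_ne_one (by decide : 2 ≠ 1), bernoulli'_two,
    bernoulli_eq_bernoulli'_of_ne_one (by decide : 3 ≠ 1), bernoulli'_three,
    bernoulli_eq_bernoulli'_of_ne_one (by decide : 2 * 2 ≠ 1), bernoulli'_four]
  norm_num [Nat.choose, Nat.factorial]
  ring

theorem Ker_eq {x : ℝ} (hx : x ∈ Icc (0 : ℝ) 1) :
    Ker x - (Ker (x - √2) + Ker (x + √2)) / 2 = P4 x := by
  have h1 := (Ker_hasSum x).sub (((Ker_hasSum (x - √2)).add (Ker_hasSum (x + √2))).div_const 2)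
  refine h1.unique ?_
  have h2 : (fun k : ℕ => co k * Real.cos (2 * Real.pi * k * x) -
      (co k * Real.cos (2 * Real.pi * k * (x - √2)) + co k * Real.cos (2 * Real.pi * k * (x + √2))) / 2) =
      fun k : ℕ => 1 / (k : ℝ) ^ 4 * Real.cos (2 * Real.pi * k * x) := by
    funext k
    by_cases hk : k = 0
    · subst hk
      simp
    rw [← co_mul k hk]
    rw [show 2 * Real.pi * k * (x - √2) = 2 * Real.pi * k * x - 2 * Real.pi * k * √2 by ring,
      show 2 * Real.pi * k * (x + √2) = 2 * Real.pi * k * x + 2 * Real.pi * k * √2 by ring,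
      Real.cos_sub, Real.cos_add]
    ring
  rw [h2]
  exact hasSum_P4 hx

end Pool.Agent.Work.MP_fe1501_h42
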