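import Pool.Agent.Work.MP_fe1501_h42.Meas
import Pool.Agent.Work.MP_fe1501_h42.Dio
import Pool.Agent.Work.MP_326c77_gt.ParamInt

set_option autoImplicit false

open MeasureTheory Metric Set
open scoped ContDiff NNReal

namespace Pool.Agent.Work.MP_fe1501_h42

/-- the circle action with weights `m, n`, parametrised with period one -/
noncomputable def W (m n : ℤ) (x : ℝ) (y : E4) : E4 :=
  Rot (m * (2 * Real.pi * x)) (n * (2 * Real.pi * x)) y

theorem W_zero (m n : ℤ) (y : E4) : W m n 0 y = y := by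
  unfold W; rw [mul_zero, mul_zero, mul_zero, Rot_zero]

theorem W_add (m n : ℤ) (s t : ℝ) (y : E4) : W m n s (W m n t y) = W m n (s + t) y := by
  unfold W
  rw [Rot_Rot]
  congr 1 <;> ring

theorem W_one (m n : ℤ) (s : ℝ) (y : E4) : W m n (s + 1) y = W m n s y := by
  unfold W
  rw [← Rot_period (m * (2 * Real.pi * s)) (n * (2 * Real.pi * s)) m n]
  congr 1 <;> ring

theorem W_mem {m n : ℤ} {s : ℝ} {y : E4} (h : y ∈ S3) : W m n s y ∈ S3 := Rot_mem h

theorem W_Rot (m n : ℤ) (s α β : ℝ) (y : E4) : W m n s (Rot α β y) = Rot α β (W m n s y) := by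
  unfold W
  rw [Rot_Rot, Rot_Rot, add_comm _ α, add_comm _ β]

theorem contDiff_W (m n : ℤ) {X : Type*} [NormedAddCommGroup X] [NormedSpace ℝ X] {a : X → ℝ}
    {g : X → E4} (ha : ContDiff ℝ ∞ a) (hg : ContDiff ℝ ∞ g) :
    ContDiff ℝ ∞ (fun y => W m n (a y) (g y)) := by
  have h1 : ContDiff ℝ ∞ (fun y => 2 * Real.pi * a y) := contDiff_const.mul ha
  exact contDiff_Rot (contDiff_const.mul h1) (contDiff_const.mul h1) hg

/-- the derivative along the circle action -/
noncomputable def Dv (m n : ℤ) (φ : E4 → ℝ) (y : E4) : ℝ := deriv (fun x => φ (W m n x y)) 0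

theorem contDiff_Dv (m n : ℤ) {φ : E4 → ℝ} (hφ : ContDiff ℝ ∞ φ) : ContDiff ℝ ∞ (Dv m n φ) := by
  have h1 : ContDiff ℝ ∞ (Function.uncurry (fun (y : E4) (x : ℝ) => φ (W m n x y))) :=
    hφ.comp (contDiff_W m n contDiff_snd contDiff_fst)
  have h2 := ContDiff.fderiv_apply (n := ∞) (m := ∞) h1 (g := fun _ => (0 : ℝ)) (k := fun _ => (1 : ℝ))
    contDiff_const contDiff_const (by simp)
  exact h2

theorem hasDerivAt_W (m n : ℤ) {φ : E4 → ℝ} (hφ : ContDiff ℝ ∞ φ) (y : E4) (x : ℝ) :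
    HasDerivAt (fun t => φ (W m n t y)) (Dv m n φ (W m n x y)) x := by
  have h1 : ContDiff ℝ ∞ (fun t : ℝ => φ (W m n t (W m n x y))) :=
    hφ.comp (contDiff_W m n contDiff_id contDiff_const)
  have h2 : HasDerivAt (fun t : ℝ => φ (W m n t (W m n x y))) (Dv m n φ (W m n x y)) (x - x) := by
    rw [sub_self]
    exact ((h1.differentiable (by simp)) 0).hasDerivAt
  have h3 := h2.comp_sub_const x x
  refine h3.congr_of_eventuallyEq (Filter.Eventually.of_forall fun t => ?_)
  show φ (W m n t y) = φ (W m n (t - x) (W m n x y))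
  rw [W_add, sub_add_cancel]

theorem InvS_Dv {m n p q : ℤ} {φ : E4 → ℝ} (h : InvS p q φ) : InvS p q (Dv m n φ) := by
  intro s x hx
  unfold Dv
  congr 1
  funext t
  rw [W_Rot, h s _ (W_mem hx)]

/-- four integrations by parts -/
theorem parts_aux (u0 u1 u2 u3 u4 : ℝ → ℝ) (d0 : ∀ x, HasDerivAt u0 (u1 x) x)
    (d1 : ∀ x, HasDerivAt u1 (u2 x) x) (d2 : ∀ x, HasDerivAt u2 (u3 x) x)
    (d3 : ∀ x, HasDerivAt u3 (u4 x) x) (c4 : Continuous u4) (e0 : u0 1 = u0 0) (e1 : u1 1 = u1 0)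
    (e2 : u2 1 = u2 0) (e3 : u3 1 = u3 0) (h0 : ∫ x in (0 : ℝ)..1, u0 x = 0) :
    ∫ x in (0 : ℝ)..1, P4 x * u4 x = 8 * Real.pi ^ 4 * u0 0 := by
  have hd : ∀ x, HasDerivAt (fun x => (x ^ 4 - 2 * x ^ 3 + x ^ 2 - 1 / 30) * u3 x -
      (4 * x ^ 3 - 6 * x ^ 2 + 2 * x) * u2 x + (12 * x ^ 2 - 12 * x + 2) * u1 x -
      (24 * x - 12) * u0 x) ((x ^ 4 - 2 * x ^ 3 + x ^ 2 - 1 / 30) * u4 x - 24 * u0 x) x := by
    intro x
    have p0 : HasDerivAt (fun x : ℝ => x ^ 4 - 2 * x ^ 3 + x ^ 2 - 1 / 30)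
        (4 * x ^ 3 - 6 * x ^ 2 + 2 * x) x := by
      have h := (((hasDerivAt_pow 4 x).sub ((hasDerivAt_pow 3 x).const_mul 2)).add
        (hasDerivAt_pow 2 x)).sub_const (1 / 30 : ℝ)
      refine h.congr_deriv ?_
      norm_num
      ring
    have p1 : HasDerivAt (fun x : ℝ => 4 * x ^ 3 - 6 * x ^ 2 + 2 * x) (12 * x ^ 2 - 12 * x + 2) x := by
      have h := (((hasDerivAt_pow 3 x).const_mul 4).sub ((hasDerivAt_pow 2 x).const_mul 6)).add
        ((hasDerivAt_id x).const_mul 2)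
      refine h.congr_deriv ?_
      norm_num
      ring
    have p2 : HasDerivAt (fun x : ℝ => 12 * x ^ 2 - 12 * x + 2) (24 * x - 12) x := by
      have h := (((hasDerivAt_pow 2 x).const_mul 12).sub ((hasDerivAt_id x).const_mul 12)).add_const
        (2 : ℝ)
      refine h.congr_deriv ?_
      norm_num
      ring
    have p3 : HasDerivAt (fun x : ℝ => 24 * x - 12) 24 x := by
      have h := ((hasDerivAt_id x).const_mul 24).sub_const (12 : ℝ)
      refine h.congr_deriv ?_
      norm_num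
    refine ((((p0.mul (d3 x)).sub (p1.mul (d2 x))).add (p2.mul (d1 x))).sub
      (p3.mul (d0 x))).congr_deriv ?_
    ring
  have c0 : Continuous u0 := continuous_iff_continuousAt.2 fun x => (d0 x).continuousAt
  have hftc := intervalIntegral.integral_eq_sub_of_hasDerivAt (a := 0) (b := 1) (fun x _ => hd x)
    (Continuous.intervalIntegrable (by fun_prop) _ _)
  rw [intervalIntegral.integral_sub (Continuous.intervalIntegrable (by fun_prop) _ _)
    (Continuous.intervalIntegrable (by fun_prop) _ _), intervalIntegral.integral_const_mul, h0] at hftc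
  have hP : ∀ x, P4 x * u4 x =
      -(Real.pi ^ 4 / 3) * ((x ^ 4 - 2 * x ^ 3 + x ^ 2 - 1 / 30) * u4 x) := by
    intro x
    unfold P4
    ring
  simp only [hP]
  rw [intervalIntegral.integral_const_mul]
  rw [e0, e1, e2, e3] at hftc
  linear_combination (-(Real.pi ^ 4 / 3)) * hftc

theorem four_parts (m n : ℤ) {φ : E4 → ℝ} (hφ : ContDiff ℝ ∞ φ) (y : E4)
    (h0 : ∫ x in (0 : ℝ)..1, φ (W m n x y) = 0) :
    ∫ x in (0 : ℝ)..1, P4 x * Dv m n (Dv m n (Dv m n (Dv m n φ))) (W m n x y) =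
      8 * Real.pi ^ 4 * φ y := by
  have hφ1 := contDiff_Dv m n hφ
  have hφ2 := contDiff_Dv m n hφ1
  have hφ3 := contDiff_Dv m n hφ2
  have hφ4 := contDiff_Dv m n hφ3
  have hW1 : W m n 1 y = W m n 0 y := by rw [show (1 : ℝ) = 0 + 1 by norm_num, W_one]
  have h := parts_aux (fun x => φ (W m n x y)) _ _ _ _ (hasDerivAt_W m n hφ y)
    (hasDerivAt_W m n hφ1 y) (hasDerivAt_W m n hφ2 y) (hasDerivAt_W m n hφ3 y)
    ((hφ4.comp (contDiff_W m n contDiff_id contDiff_const)).continuous) (by rw [hW1]) (by rw [hW1])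
    (by rw [hW1]) (by rw [hW1]) h0
  simp only [W_zero] at h
  exact h

/-- the solution of the cohomological equation -/
noncomputable def Vf (m n : ℤ) (φ : E4 → ℝ) (y : E4) : ℝ :=
  1 / (8 * Real.pi ^ 4) *
    ∫ x in (0 : ℝ)..1, Ker x * Dv m n (Dv m n (Dv m n (Dv m n φ))) (W m n x y)

theorem InvS_Vf {m n p q : ℤ} {φ : E4 → ℝ} (h : InvS p q φ) : InvS p q (Vf m n φ) := by
  intro s x hx
  have h4 := InvS_Dv (m := m) (n := n) (InvS_Dv (m := m) (n := n) (InvS_Dv (m := m) (n := n)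
    (InvS_Dv (m := m) (n := n) h)))
  unfold Vf
  congr 1
  congr 1
  funext t
  rw [W_Rot, h4 s _ (W_mem hx)]

theorem contDiff_int (m n : ℤ) {ψ : E4 → ℝ} (hψ : ContDiff ℝ ∞ ψ) :
    ContDiff ℝ ∞ (fun y => ∫ x in (0 : ℝ)..1, Ker x * ψ (W m n x y)) := by
  let η : ContDiffBump (1 / 2 : ℝ) := ⟨1, 2, by norm_num, by norm_num⟩
  have hη : ContDiff ℝ ∞ η := η.contDiff
  have h1 := Pool.Agent.Work.MP_326c77_gt.contDiffOn_param_integral (P := E4) (E := ℝ) (A := ℝ)
    (ν := volume) (f := (Ioc (0 : ℝ) 1).indicator Ker) (Q := fun y x => η x * ψ (W m n x y))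
    (s := univ) (k := closedBall (1 / 2 : ℝ) 2) isOpen_univ (isCompact_closedBall _ _)
    (by
      intro y x _ hx
      have : η x = 0 := η.zero_of_le_dist (by
        rw [mem_closedBall, not_le] at hx
        exact hx.le)
      simp [this])
    (by
      have h2 : IntegrableOn Ker (Ioc (0 : ℝ) 1) volume :=
        (Ker_cont.integrableOn_Icc (a := 0) (b := 1)).mono_set Ioc_subset_Icc_self
      exact ((integrable_indicator_iff measurableSet_Ioc).2 h2).locallyIntegrable)
    (by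
      have h3 : ContDiff ℝ ∞ (fun q : E4 × ℝ => η q.2 * ψ (W m n q.2 q.1)) :=
        (hη.comp contDiff_snd).mul (hψ.comp (contDiff_W m n contDiff_snd contDiff_fst))
      exact h3.contDiffOn)
  rw [contDiffOn_univ] at h1
  have h5 : (fun y => ∫ x in (0 : ℝ)..1, Ker x * ψ (W m n x y)) = fun y => ∫ x, (η x * ψ (W m n x y)) •
      (Ioc (0 : ℝ) 1).indicator Ker x := by
    funext y
    rw [intervalIntegral.integral_of_le (by norm_num), ← integral_indicator measurableSet_Ioc]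
    congr 1
    funext x
    by_cases hx : x ∈ Ioc (0 : ℝ) 1
    · have h4 : η x = 1 := η.one_of_mem_closedBall (by
        rw [mem_closedBall, Real.dist_eq]
        show |x - 1 / 2| ≤ (1 : ℝ)
        rw [abs_le]
        constructor <;> linarith [hx.1, hx.2])
      rw [indicator_of_mem hx, indicator_of_mem hx, h4, smul_eq_mul, one_mul, mul_comm]
    · rw [indicator_of_notMem hx, indicator_of_notMem hx, smul_zero]
  rw [h5]
  exact h1

theorem contDiff_Vf (m n : ℤ) {φ : E4 → ℝ} (hφ : ContDiff ℝ ∞ φ) : ContDiff ℝ ∞ (Vf m n φ) := by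
  have h4 := contDiff_Dv m n (contDiff_Dv m n (contDiff_Dv m n (contDiff_Dv m n hφ)))
  exact contDiff_const.mul (contDiff_int m n h4)

/-- shift of the parameter in the kernel integral -/
theorem int_shift (m n : ℤ) {ψ : E4 → ℝ} (c : ℝ) (y : E4) :
    ∫ x in (0 : ℝ)..1, Ker x * ψ (W m n x (W m n c y)) =
      ∫ x in (0 : ℝ)..1, Ker (x - c) * ψ (W m n x y) := by
  set g : ℝ → ℝ := fun x => Ker (x - c) * ψ (W m n x y) with hg
  have hper : Function.Periodic g 1 := by
    intro x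
    show Ker (x + 1 - c) * ψ (W m n (x + 1) y) = Ker (x - c) * ψ (W m n x y)
    rw [W_one, show x + 1 - c = (x - c) + 1 by ring, Ker_per]
  have h1 : (fun x => Ker x * ψ (W m n x (W m n c y))) = fun x => g (x + c) := by
    funext x
    rw [hg]
    simp only [add_sub_cancel_right]
    rw [W_add]
  rw [h1, intervalIntegral.integral_comp_add_right g c]
  have := hper.intervalIntegral_add_eq c 0
  rw [zero_add] at this ⊢
  rw [add_comm 1 c]
  exact this

theorem kern_lin {v : ℝ → ℝ} (hv : Continuous v) : ∫ x in (0 : ℝ)..1, P4 x * v x =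
    (∫ x in (0 : ℝ)..1, Ker x * v x) - ((∫ x in (0 : ℝ)..1, Ker (x - √2) * v x) +
      ∫ x in (0 : ℝ)..1, Ker (x - -√2) * v x) / 2 := by
  have hK := Ker_cont
  rw [← intervalIntegral.integral_add (Continuous.intervalIntegrable (by fun_prop) _ _)
    (Continuous.intervalIntegrable (by fun_prop) _ _), ← intervalIntegral.integral_div,
    ← intervalIntegral.integral_sub (Continuous.intervalIntegrable (by fun_prop) _ _)
    (Continuous.intervalIntegrable (by fun_prop) _ _)]
  apply intervalIntegral.integral_congr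
  intro x hx
  rw [uIcc_of_le (by norm_num)] at hx
  show P4 x * v x = Ker x * v x - (Ker (x - √2) * v x + Ker (x - -√2) * v x) / 2
  rw [← Ker_eq hx, sub_neg_eq_add]
  ring

theorem Vf_eq (m n : ℤ) {φ : E4 → ℝ} (hφ : ContDiff ℝ ∞ φ) (y : E4)
    (h0 : ∫ x in (0 : ℝ)..1, φ (W m n x y) = 0) :
    Vf m n φ y - (Vf m n φ (W m n √2 y) + Vf m n φ (W m n (-√2) y)) / 2 = φ y := by
  have h4 := contDiff_Dv m n (contDiff_Dv m n (contDiff_Dv m n (contDiff_Dv m n hφ)))
  have hp := four_parts m n hφ y h0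
  unfold Vf
  rw [int_shift, int_shift]
  rw [kern_lin (v := fun x => Dv m n (Dv m n (Dv m n (Dv m n φ))) (W m n x y))
    ((h4.comp (contDiff_W m n contDiff_id contDiff_const)).continuous)] at hp
  have hpi := Real.pi_pos
  field_simp
  linarith

end Pool.Agent.Work.MP_fe1501_h42
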