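import Pool.Agent.Work.MP_fe1501_h42.Meas

set_option autoImplicit false

open MeasureTheory Metric Set
open scoped ContDiff NNReal

namespace Pool.Agent.Work.MP_fe1501_h42

/-- `σ` belongs to `Diff₀(S³, vol)`: it is the time-one map of a smooth isotopy, starting at the
identity, of volume-preserving diffeomorphisms of the round 3-sphere (the isotopy and its inverse
are restrictions of smooth maps `ℝ × E4 → E4`; the volume is the 3-dimensional Hausdorff
measure). -/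
def InG (σ : Equiv.Perm S3) : Prop :=
  ∃ F H : ℝ × E4 → E4, ContDiff ℝ ∞ F ∧ ContDiff ℝ ∞ H ∧
    (∀ t : ℝ, ∀ x ∈ S3, F (t, x) ∈ S3 ∧ H (t, x) ∈ S3 ∧ H (t, F (t, x)) = x ∧
      F (t, H (t, x)) = x) ∧
    (∀ t : ℝ, MeasurePreserving (fun x => F (t, x)) nu nu) ∧
    (∀ x ∈ S3, F ((0 : ℝ), x) = x) ∧
    (∀ x : S3, F ((1 : ℝ), (x : E4)) = ((σ x : S3) : E4))

theorem InG.mul {σ τ : Equiv.Perm S3} (hσ : InG σ) (hτ : InG τ) : InG (σ * τ) := by
  obtain ⟨F, H, hF, hH, h1, h2, h3, h4⟩ := hσ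
  obtain ⟨F', H', hF', hH', h1', h2', h3', h4'⟩ := hτ
  refine ⟨fun q => F (q.1, F' q), fun q => H' (q.1, H q), hF.comp (contDiff_fst.prodMk hF'),
    hH'.comp (contDiff_fst.prodMk hH), ?_, ?_, ?_, ?_⟩
  · intro t x hx
    obtain ⟨a1, a2, a3, a4⟩ := h1' t x hx
    obtain ⟨b1, b2, b3, b4⟩ := h1 t (F' (t, x)) a1
    obtain ⟨c1, c2, c3, c4⟩ := h1 t x hx
    obtain ⟨d1, d2, d3, d4⟩ := h1' t (H (t, x)) c2
    refine ⟨b1, d2, ?_, ?_⟩
    · show H' (t, H (t, F (t, F' (t, x)))) = x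
      rw [b3, a3]
    · show F (t, F' (t, H' (t, H (t, x)))) = x
      rw [d4, c4]
  · intro t
    exact (h2 t).comp (h2' t)
  · intro x hx
    show F (0, F' (0, x)) = x
    rw [h3' x hx, h3 x hx]
  · intro x
    show F (1, F' (1, x)) = ((σ (τ x) : S3) : E4)
    rw [h4' x, h4 (τ x)]

theorem InG.inv {σ : Equiv.Perm S3} (hσ : InG σ) : InG σ⁻¹ := by
  obtain ⟨F, H, hF, hH, h1, h2, h3, h4⟩ := hσ
  refine ⟨H, F, hH, hF, ?_, ?_, ?_, ?_⟩
  · intro t x hx
    obtain ⟨a1, a2, a3, a4⟩ := h1 t x hx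
    exact ⟨a2, a1, a4, a3⟩
  · intro t
    have hc : Continuous (fun x => H (t, x)) := hH.continuous.comp (by fun_prop)
    refine ⟨hc.measurable, ?_⟩
    ext A hA
    rw [Measure.map_apply hc.measurable hA]
    have h5 := (h2 t).measure_preimage (hc.measurable hA).nullMeasurableSet
    rw [← h5]
    apply measure_congr
    filter_upwards [ae_S3] with x hx
    have h6 : ((fun x => F (t, x)) ⁻¹' ((fun x => H (t, x)) ⁻¹' A)) x = (H (t, F (t, x)) ∈ A) := rfl
    rw [h6, (h1 t x hx).2.2.1]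
    rfl
  · intro x hx
    have h5 := (h1 0 x hx).2.2.1
    rwa [h3 x hx] at h5
  · intro x
    have h5 := (h1 1 (σ⁻¹ x : S3) (σ⁻¹ x).2).2.2.1
    rw [h4 (σ⁻¹ x)] at h5
    rw [← h5]
    congr 2
    simp

/-- `x ↦ Tw m n u x` as a permutation of the sphere -/
noncomputable def tP (m n : ℤ) (u : E4 → ℝ) (h : InvS m n u) : Equiv.Perm S3 where
  toFun x := ⟨Tw m n u x, Tw_mem x.2⟩
  invFun x := ⟨Tw m n (fun y => -u y) x, Tw_mem x.2⟩
  left_inv x := by
    apply Subtype.ext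
    show Rot (m * -u (Tw m n u x)) (n * -u (Tw m n u x)) (Tw m n u x) = x
    have h1 : u (Tw m n u x) = u x := h (u x) x x.2
    rw [h1, Tw, Rot_Rot, mul_neg, mul_neg, neg_add_cancel, neg_add_cancel, Rot_zero]
  right_inv x := by
    apply Subtype.ext
    show Rot (m * u (Tw m n (fun y => -u y) x)) (n * u (Tw m n (fun y => -u y) x))
      (Tw m n (fun y => -u y) x) = x
    have h1 : u (Tw m n (fun y => -u y) x) = u x := h (-u x) x x.2
    rw [h1, Tw, Rot_Rot, mul_neg, mul_neg, add_neg_cancel, add_neg_cancel, Rot_zero]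

theorem tP_apply {m n : ℤ} {u : E4 → ℝ} {h : InvS m n u} (x : S3) :
    ((tP m n u h x : S3) : E4) = Rot (m * u x) (n * u x) x := rfl

/-- complex conjugation as a permutation of the sphere -/
noncomputable def cP : Equiv.Perm S3 where
  toFun x := ⟨Cj x, Cj_mem x.2⟩
  invFun x := ⟨Cj x, Cj_mem x.2⟩
  left_inv x := Subtype.ext (Cj_Cj x)
  right_inv x := Subtype.ext (Cj_Cj x)

theorem cP_apply (x : S3) : ((cP x : S3) : E4) = Cj x := rfl

theorem cP_inv : cP⁻¹ = cP := by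
  ext x
  rfl

theorem InvS.smul {m n : ℤ} {u : E4 → ℝ} (h : InvS m n u) (c : ℝ) :
    InvS m n (fun x => c * u x) := fun s x hx => by
  show c * _ = c * _
  rw [h s x hx]

theorem InvS.neg {m n : ℤ} {u : E4 → ℝ} (h : InvS m n u) :
    InvS m n (fun x => -u x) := fun s x hx => by
  show -_ = -_
  rw [h s x hx]

theorem InvS.add {m n : ℤ} {u v : E4 → ℝ} (h : InvS m n u) (h' : InvS m n v) :
    InvS m n (fun x => u x + v x) := fun s x hx => by
  show _ + _ = _ + _
  rw [h s x hx, h' s x hx]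

theorem InvS.const (m n : ℤ) (c : ℝ) : InvS m n (fun _ => c) := fun _ _ _ => rfl

theorem InG_tP {m n : ℤ} {u : E4 → ℝ} (hu : ContDiff ℝ ∞ u) (h : InvS m n u) :
    InG (tP m n u h) := by
  have hF (c : ℝ) : ContDiff ℝ ∞ (fun q : ℝ × E4 =>
      Rot (m * ((c * q.1) * u q.2)) (n * ((c * q.1) * u q.2)) q.2) := by
    have h1 : ContDiff ℝ ∞ (fun q : ℝ × E4 => (c * q.1) * u q.2) :=
      (contDiff_const.mul contDiff_fst).mul (hu.comp contDiff_snd)
    exact contDiff_Rot (contDiff_const.mul h1) (contDiff_const.mul h1) contDiff_snd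
  have hb (c d t : ℝ) (hcd : c + d = 0) (x : E4) (hx : x ∈ S3) :
      Rot (m * ((c * t) * u (Rot (m * ((d * t) * u x)) (n * ((d * t) * u x)) x)))
        (n * ((c * t) * u (Rot (m * ((d * t) * u x)) (n * ((d * t) * u x)) x)))
        (Rot (m * ((d * t) * u x)) (n * ((d * t) * u x)) x) = x := by
    rw [h _ x hx, Rot_Rot]
    have e1 : (m : ℝ) * (c * t * u x) + m * (d * t * u x) = 0 := by
      linear_combination (m : ℝ) * t * u x * hcd
    have e2 : (n : ℝ) * (c * t * u x) + n * (d * t * u x) = 0 := by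
      linear_combination (n : ℝ) * t * u x * hcd
    rw [e1, e2, Rot_zero]
  refine ⟨fun q => Rot (m * ((1 * q.1) * u q.2)) (n * ((1 * q.1) * u q.2)) q.2,
    fun q => Rot (m * (((-1) * q.1) * u q.2)) (n * (((-1) * q.1) * u q.2)) q.2,
    hF 1, hF (-1), ?_, ?_, ?_, ?_⟩
  · intro t x hx
    exact ⟨Rot_mem hx, Rot_mem hx, hb (-1) 1 t (by norm_num) x hx, hb 1 (-1) t (by norm_num) x hx⟩
  · intro t
    exact mp_Tw m n (u := fun x => (1 * t) * u x) (continuous_const.mul hu.continuous) (h.smul _)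
  · intro x _
    show Rot (m * ((1 * 0) * u x)) (n * ((1 * 0) * u x)) x = x
    simp [Rot_zero]
  · intro x
    show Rot (m * ((1 * 1) * u x)) (n * ((1 * 1) * u x)) x = _
    rw [tP_apply]
    simp

theorem InG_cP : InG cP := by
  have hF (c : ℝ) : ContDiff ℝ ∞ (fun q : ℝ × E4 => Pth (c * q.1) q.2) :=
    contDiff_Pth (contDiff_const.mul contDiff_fst) contDiff_snd
  refine ⟨fun q => Pth (Real.pi * q.1) q.2, fun q => Pth ((-Real.pi) * q.1) q.2,
    hF _, hF _, ?_, ?_, ?_, ?_⟩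
  · intro t x hx
    refine ⟨Pth_mem hx, Pth_mem hx, ?_, ?_⟩
    · show Pth ((-Real.pi) * t) (Pth (Real.pi * t) x) = x
      rw [Pth_Pth, show (-Real.pi) * t + Real.pi * t = 0 by ring, Pth_zero]
    · show Pth (Real.pi * t) (Pth ((-Real.pi) * t) x) = x
      rw [Pth_Pth, show Real.pi * t + (-Real.pi) * t = 0 by ring, Pth_zero]
  · intro t
    exact mp_Pth (Real.pi * t)
  · intro x _
    show Pth (Real.pi * 0) x = x
    rw [mul_zero, Pth_zero]
  · intro x
    show Pth (Real.pi * 1) x = _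
    rw [mul_one, Pth_pi, cP_apply]

theorem tP_mul {m n : ℤ} {u v : E4 → ℝ} (h : InvS m n u) (h' : InvS m n v) :
    tP m n u h * tP m n v h' = tP m n (fun x => u x + v x) (h.add h') := by
  apply Equiv.ext
  intro x
  apply Subtype.ext
  show Rot (m * u (Rot (m * v x) (n * v x) x)) (n * u (Rot (m * v x) (n * v x) x))
    (Rot (m * v x) (n * v x) x) = Rot (m * (u x + v x)) (n * (u x + v x)) x
  rw [h _ x x.2, Rot_Rot, mul_add, mul_add]

theorem tP_inv {m n : ℤ} {u : E4 → ℝ} (h : InvS m n u) :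
    (tP m n u h)⁻¹ = tP m n (fun x => -u x) h.neg := by
  apply Equiv.ext
  intro x
  rfl

theorem tP_congr {m n : ℤ} {u v : E4 → ℝ} (h : InvS m n u) (h' : InvS m n v)
    (e : ∀ x ∈ S3, u x = v x) : tP m n u h = tP m n v h' := by
  apply Equiv.ext
  intro x
  apply Subtype.ext
  rw [tP_apply, tP_apply, e x x.2]

/-- conjugation of `tP` by a permutation that commutes with the circle action up to a sign -/
theorem conj_tP {m n : ℤ} {u : E4 → ℝ} (h : InvS m n u) (γ : Equiv.Perm S3) (g : E4 → E4) (ε : ℝ)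
    (hε : ε * ε = 1) (hg : ∀ x : S3, ((γ⁻¹ x : S3) : E4) = g x)
    (hγ : ∀ s : ℝ, ∀ x ∈ S3, g (Rot (m * s) (n * s) x) = Rot (m * (ε * s)) (n * (ε * s)) (g x))
    (u' : E4 → ℝ) (h' : InvS m n u') (hu' : ∀ x ∈ S3, u' x = ε * u (g x)) :
    γ * tP m n u h * γ⁻¹ = tP m n u' h' := by
  apply Equiv.ext
  intro x
  apply γ⁻¹.injective
  apply Subtype.ext
  have h1 : γ⁻¹ ((γ * tP m n u h * γ⁻¹) x) = tP m n u h (γ⁻¹ x) := by
    simp [Equiv.Perm.mul_apply]
  rw [h1, tP_apply, hg, hg]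
  show _ = g (Rot (m * u' x) (n * u' x) x)
  rw [hγ _ x x.2, hu' x x.2, ← mul_assoc ε ε, hε, one_mul]

/-- every point of the sphere and its conjugate lie on one orbit of the torus -/
theorem Cj_orbit (x : E4) : ∃ α β : ℝ, Cj x = Rot α β x := by
  set z : ℂ := ⟨x 0, x 1⟩ with hz
  set w : ℂ := ⟨x 2, x 3⟩ with hw
  have key (z : ℂ) : (starRingEnd ℂ) z = Complex.exp (-(2 * z.arg : ℝ) * Complex.I) * z := by
    conv_lhs => rw [← Complex.norm_mul_exp_arg_mul_I z]
    conv_rhs => rw [← Complex.norm_mul_exp_arg_mul_I z]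
    rw [map_mul, Complex.conj_ofReal, ← Complex.exp_conj, map_mul, Complex.conj_I,
      Complex.conj_ofReal, mul_left_comm, ← Complex.exp_add]
    congr 2
    push_cast
    rw [Complex.norm_mul_exp_arg_mul_I]
    ring
  have key2 (a b : ℝ) : ∃ α : ℝ, a = Real.cos α * a - Real.sin α * b ∧
      -b = Real.sin α * a + Real.cos α * b := by
    have h1 := key ⟨a, b⟩
    set t := Complex.arg ⟨a, b⟩
    have e : Complex.exp (-(2 * t : ℝ) * Complex.I) =
        ⟨Real.cos (-(2 * t)), Real.sin (-(2 * t))⟩ := by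
      rw [← Complex.ofReal_neg]
      apply Complex.ext
      · rw [Complex.exp_ofReal_mul_I_re]
      · rw [Complex.exp_ofReal_mul_I_im]
    rw [e] at h1
    have h2 := congrArg Complex.re h1
    have h3 := congrArg Complex.im h1
    rw [Complex.conj_re, Complex.mul_re] at h2
    rw [Complex.conj_im, Complex.mul_im] at h3
    refine ⟨-(2 * t), h2, ?_⟩
    rw [add_comm]
    exact h3
  obtain ⟨α, h1, h2⟩ := key2 (x 0) (x 1)
  obtain ⟨β, h3, h4⟩ := key2 (x 2) (x 3)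
  exact ⟨α, β, ext4 h1 h2 h3 h4⟩

/-- every element of the torus is a product of elements of the two circles with weights
`(p, q)` and `(-q, p)` -/
theorem Rot_split (p q : ℤ) (h : ¬(p = 0 ∧ q = 0)) (α β : ℝ) : ∃ s t : ℝ, ∀ x,
    Rot α β x = Rot (p * s) (q * s) (Rot ((-q : ℤ) * t) (p * t) x) := by
  have hN : ((p : ℝ) ^ 2 + (q : ℝ) ^ 2) ≠ 0 := by
    intro h0
    apply h
    have h1 : (p : ℝ) ^ 2 = 0 := by nlinarith [sq_nonneg (p : ℝ), sq_nonneg (q : ℝ)]
    have h2 : (q : ℝ) ^ 2 = 0 := by nlinarith [sq_nonneg (p : ℝ), sq_nonneg (q : ℝ)]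
    constructor
    · exact_mod_cast pow_eq_zero_iff (two_ne_zero) |>.1 h1
    · exact_mod_cast pow_eq_zero_iff (two_ne_zero) |>.1 h2
  refine ⟨(p * α + q * β) / (p ^ 2 + q ^ 2), (-q * α + p * β) / (p ^ 2 + q ^ 2), fun x => ?_⟩
  rw [Rot_Rot]
  push_cast
  congr 1
  · field_simp
    ring
  · field_simp
    ring

/-- a function invariant under the whole torus is invariant under conjugation -/
theorem Cj_inv {p q : ℤ} (h : ¬(p = 0 ∧ q = 0)) {a : E4 → ℝ} (h1 : InvS p q a)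
    (h2 : InvS (-q) p a) (x : E4) (hx : x ∈ S3) : a (Cj x) = a x := by
  obtain ⟨α, β, e⟩ := Cj_orbit x
  obtain ⟨s, t, e2⟩ := Rot_split p q h α β
  rw [e, e2, h1 _ _ (Rot_mem hx), h2 _ _ hx]

end Pool.Agent.Work.MP_fe1501_h42
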