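import Pool.Agent.Work.MP_fe1501_h42.Grp
import Pool.Agent.Work.MP_fe1501_h42.Coh

set_option autoImplicit false

open MeasureTheory Metric Set
open scoped ContDiff NNReal

namespace Pool.Agent.Work.MP_fe1501_h42

/-- the involution `x ↦ conj (S_{-a(x)} x)` -/
noncomputable def Rh (m n : ℤ) (a : E4 → ℝ) (x : E4) : E4 := Cj (Rot (m * -a x) (n * -a x) x)

theorem Rh_mem {m n : ℤ} {a : E4 → ℝ} {x : E4} (h : x ∈ S3) : Rh m n a x ∈ S3 := Cj_mem (Rot_mem h)

theorem contDiff_Rh {m n : ℤ} {a : E4 → ℝ} (ha : ContDiff ℝ ∞ a) : ContDiff ℝ ∞ (Rh m n a) := by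
  have h1 : ContDiff ℝ ∞ (fun x => -a x) := ha.neg
  exact contDiff_Cj (contDiff_Rot (contDiff_const.mul h1) (contDiff_const.mul h1) contDiff_id)

section
variable {p q : ℤ} {a : E4 → ℝ} (hpq : ¬(p = 0 ∧ q = 0)) (ha1 : InvS p q a) (ha2 : InvS (-q) p a)

/-- a function invariant under both circles is invariant under the torus -/
theorem tor_inv (hpq : ¬(p = 0 ∧ q = 0)) (ha1 : InvS p q a) (ha2 : InvS (-q) p a) (α β : ℝ) {x : E4}
    (hx : x ∈ S3) : a (Rot α β x) = a x := by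
  obtain ⟨s, t, e⟩ := Rot_split p q hpq α β
  rw [e, ha1 _ _ (Rot_mem hx), ha2 _ _ hx]

include hpq ha1 ha2

theorem Rh_Rot (α β : ℝ) {x : E4} (hx : x ∈ S3) :
    Rh (-q) p a (Rot α β x) = Rot (-α) (-β) (Rh (-q) p a x) := by
  unfold Rh
  rw [tor_inv hpq ha1 ha2 α β hx, Rot_Rot, ← Cj_Rot, Rot_Rot, add_comm α, add_comm β]

theorem Rh_Rh {x : E4} (hx : x ∈ S3) : Rh (-q) p a (Rh (-q) p a x) = x := by
  have h1 : a (Rh (-q) p a x) = a x := by
    unfold Rh
    rw [Cj_inv hpq ha1 ha2 _ (Rot_mem hx), tor_inv hpq ha1 ha2 _ _ hx]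
  have h2 : Rh (-q) p a (Rh (-q) p a x) =
      Cj (Rot ((-q : ℤ) * -a x) (p * -a x) (Cj (Rot ((-q : ℤ) * -a x) (p * -a x) x))) := by
    conv_lhs => unfold Rh
    rw [show a (Cj (Rot ((-q : ℤ) * -a x) (p * -a x) x)) = a x from h1]
  rw [h2, Cj_Rot, Cj_Cj, Rot_Rot]
  rw [neg_add_cancel, neg_add_cancel, Rot_zero]

theorem Rh_W (t : ℝ) {x : E4} (hx : x ∈ S3) :
    Rh (-q) p a (W (-q) p t x) = W (-q) p (-t) (Rh (-q) p a x) := by
  unfold W
  rw [Rh_Rot hpq ha1 ha2 _ _ hx]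
  congr 1 <;> ring

theorem InvS_Rh {u : E4 → ℝ} (hu : InvS p q u) : InvS p q (fun x => u (Rh (-q) p a x)) := by
  intro s x hx
  show u (Rh (-q) p a (Rot (p * s) (q * s) x)) = u (Rh (-q) p a x)
  rw [Rh_Rot hpq ha1 ha2 _ _ hx]
  have := hu (-s) (Rh (-q) p a x) (Rh_mem hx)
  rw [← this]
  congr 1
  congr 1 <;> ring

/-- the odd part has mean zero on every orbit -/
theorem mean_zero {φ : E4 → ℝ} (hφ : InvS p q φ)
    (hodd : ∀ x ∈ S3, φ (Rh (-q) p a x) = -φ x) {y : E4} (hy : y ∈ S3) :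
    ∫ x in (0 : ℝ)..1, φ (W (-q) p x y) = 0 := by
  -- the conjugate point lies on the torus orbit
  obtain ⟨α, β, e1⟩ : ∃ α β : ℝ, Rh (-q) p a y = Rot α β y := by
    obtain ⟨α, β, e⟩ := Cj_orbit (Rot ((-q : ℤ) * -a y) (p * -a y) y)
    refine ⟨α + (-q : ℤ) * -a y, β + p * -a y, ?_⟩
    unfold Rh
    rw [e, Rot_Rot]
  obtain ⟨s, t, e2⟩ := Rot_split p q hpq α β
  have hpi := Real.pi_pos
  set t' : ℝ := t / (2 * Real.pi) with ht'
  have e3 : ∀ z, Rot ((-q : ℤ) * t) (p * t) z = W (-q) p t' z := by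
    intro z
    unfold W
    have : 2 * Real.pi * t' = t := by rw [ht']; field_simp
    rw [this]
  have key : ∀ x, φ (W (-q) p (t' - x) y) = -φ (W (-q) p x y) := by
    intro x
    rw [← hodd _ (W_mem hy), Rh_W hpq ha1 ha2 x hy, e1, e2, W_Rot, hφ s _ (W_mem (Rot_mem hy)), e3,
      W_add]
    congr 2
    ring
  have hper : Function.Periodic (fun x => φ (W (-q) p x y)) 1 := by
    intro x
    show φ (W (-q) p (x + 1) y) = _
    rw [W_one]
  have h1 : ∫ x in (0 : ℝ)..1, φ (W (-q) p (t' - x) y) = -∫ x in (0 : ℝ)..1, φ (W (-q) p x y) := by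
    rw [← intervalIntegral.integral_neg]
    congr 1
    funext x
    exact key x
  rw [intervalIntegral.integral_comp_sub_left (fun x => φ (W (-q) p x y)) t'] at h1
  have h2 := hper.intervalIntegral_add_eq (t' - 1) 0
  rw [zero_add, sub_add_cancel] at h2
  rw [sub_zero, h2] at h1
  linarith

end

theorem decomp {p q : ℤ} {a f : E4 → ℝ} (hpq : ¬(p = 0 ∧ q = 0)) (ha1 : InvS p q a)
    (ha2 : InvS (-q) p a) (hf1 : InvS p q f) (ha : ContDiff ℝ ∞ a) (hf : ContDiff ℝ ∞ f) :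
    ∃ U V : E4 → ℝ, ContDiff ℝ ∞ U ∧ ContDiff ℝ ∞ V ∧ InvS p q U ∧ InvS p q V ∧
      ∀ x ∈ S3, f x = U x + U (Rh (-q) p a x) +
        (V x + V (W (-q) p √2 (Rh (-q) p a x))) := by
  have hRh := contDiff_Rh (m := -q) (n := p) ha
  set ρ : E4 → E4 := Rh (-q) p a with hρ
  have hrr : ∀ x ∈ S3, ρ (ρ x) = x := fun x hx => Rh_Rh hpq ha1 ha2 hx
  have hrw : ∀ (t : ℝ), ∀ x ∈ S3, ρ (W (-q) p t x) = W (-q) p (-t) (ρ x) :=
    fun t x hx => Rh_W hpq ha1 ha2 t hx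
  set fo : E4 → ℝ := fun x => (1 / 2) * (f x + -f (ρ x)) with hfo
  have cfo : ContDiff ℝ ∞ fo := contDiff_const.mul (hf.add (hf.comp hRh).neg)
  have ifo : InvS p q fo := (hf1.add (InvS_Rh hpq ha1 ha2 hf1).neg).smul (1 / 2)
  have ofo : ∀ x ∈ S3, fo (ρ x) = -fo x := by
    intro x hx
    simp only [hfo]
    rw [hrr x hx]
    ring
  set V1 : E4 → ℝ := Vf (-q) p fo with hV1
  have cV1 : ContDiff ℝ ∞ V1 := contDiff_Vf (-q) p cfo
  have iV1 : InvS p q V1 := InvS_Vf ifo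
  have eV1 : ∀ x ∈ S3, V1 x - (V1 (W (-q) p √2 x) + V1 (W (-q) p (-√2) x)) / 2 = fo x := by
    intro x hx
    exact Vf_eq (-q) p cfo x (mean_zero hpq ha1 ha2 ifo ofo hx)
  set V : E4 → ℝ := fun x => (1 / 2) * (V1 x + -V1 (ρ x)) with hV
  have cV : ContDiff ℝ ∞ V := contDiff_const.mul (cV1.add (cV1.comp hRh).neg)
  have iV : InvS p q V := (iV1.add (InvS_Rh hpq ha1 ha2 iV1).neg).smul (1 / 2)
  have oV : ∀ x ∈ S3, V (ρ x) = -V x := by
    intro x hx
    simp only [hV]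
    rw [hrr x hx]
    ring
  have eV : ∀ x ∈ S3, V x - (V (W (-q) p √2 x) + V (W (-q) p (-√2) x)) / 2 = fo x := by
    intro x hx
    have h1 := eV1 x hx
    have h2 := eV1 (ρ x) (Rh_mem hx)
    rw [ofo x hx] at h2
    simp only [hV]
    rw [hrw _ x hx, hrw _ x hx, neg_neg]
    linarith
  have cW : ContDiff ℝ ∞ (fun x => W (-q) p √2 (ρ x)) := contDiff_W (-q) p contDiff_const hRh
  have iW : InvS p q (fun x => V (W (-q) p √2 (ρ x))) := by
    have h1 : InvS p q (fun x => V (W (-q) p √2 x)) := by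
      intro s x hx
      show V (W (-q) p √2 (Rot (p * s) (q * s) x)) = V (W (-q) p √2 x)
      rw [W_Rot, iV s _ (W_mem hx)]
    exact InvS_Rh hpq ha1 ha2 h1
  refine ⟨fun x => (1 / 2) * (f x + -(V x + V (W (-q) p √2 (ρ x)))), V,
    contDiff_const.mul (hf.add (cV.add (cV.comp cW)).neg), cV,
    (hf1.add (iV.add iW).neg).smul (1 / 2), iV, ?_⟩
  intro x hx
  have h1 : V (W (-q) p √2 (ρ x)) = -V (W (-q) p (-√2) x) := by
    rw [← oV _ (W_mem hx), hrw _ x hx, neg_neg]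
  have h2 := eV x hx
  simp only [hfo] at h2
  show f x = (1 / 2) * (f x + -(V x + V (W (-q) p √2 (ρ x)))) +
    (1 / 2) * (f (ρ x) + -(V (ρ x) + V (W (-q) p √2 (ρ (ρ x))))) + (V x + V (W (-q) p √2 (ρ x)))
  rw [hrr x hx, oV x hx, h1]
  linarith

/-- two commutators -/
theorem two_comm {p q : ℤ} {a f : E4 → ℝ} (hpq : ¬(p = 0 ∧ q = 0)) (ha1 : InvS p q a)
    (ha2 : InvS (-q) p a) (hf1 : InvS p q f) (ha : ContDiff ℝ ∞ a) (hf : ContDiff ℝ ∞ f) :
    ∃ A B C D : Equiv.Perm S3, InG A ∧ InG B ∧ InG C ∧ InG D ∧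
      tP p q f hf1 * tP (-q) p a ha2 = (A * B * A⁻¹ * B⁻¹) * (C * D * C⁻¹ * D⁻¹) := by
  obtain ⟨U, V, cU, cV, iU, iV, hdec⟩ := decomp hpq ha1 ha2 hf1 ha hf
  have ha2' : InvS (-q) p (fun x => 1 / 2 * a x) := ha2.smul (1 / 2)
  set k := tP (-q) p a ha2 with hk
  set h := tP (-q) p (fun x => 1 / 2 * a x) ha2' with hh
  set b : ℝ := 2 * Real.pi * √2 with hb
  set sb := tP (-q) p (fun _ => b) (InvS.const _ _ b) with hsb
  have gk : InG k := InG_tP ha ha2
  have gh : InG h := InG_tP (contDiff_const.mul ha) ha2'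
  have gs : InG sb := InG_tP contDiff_const _
  have gc : InG cP := InG_cP
  have gU : InG (tP p q U iU) := InG_tP cU iU
  have gV : InG (tP p q V iV) := InG_tP cV iV
  have hcc : cP * cP = 1 := by
    have := mul_inv_cancel cP
    rwa [cP_inv] at this
  -- k is inverted by conjugation with c, and h too
  have ckc : ∀ (u : E4 → ℝ) (hu : InvS (-q) p u), (∀ x ∈ S3, u (Cj x) = u x) →
      cP * tP (-q) p u hu * cP⁻¹ = (tP (-q) p u hu)⁻¹ := by
    intro u hu hCj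
    rw [tP_inv]
    apply conj_tP hu cP Cj (-1) (by norm_num) (fun x => rfl) _ _ _ _
    · intro s x _
      rw [Cj_Rot]
      congr 1 <;> ring
    · intro x hx
      rw [hCj x hx]
      ring
  have hCja : ∀ x ∈ S3, a (Cj x) = a x := fun x hx => Cj_inv hpq ha1 ha2 x hx
  have kc := ckc a ha2 hCja
  rw [← hk] at kc
  have hc := ckc _ ha2' (fun x hx => by rw [hCja x hx])
  rw [← hh] at hc
  have hhk : h * h = k := by
    rw [hh, tP_mul, hk]
    apply tP_congr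
    intro x _
    ring
  -- the involution ρ' = s_b c k⁻¹
  set r' := sb * cP * k⁻¹ with hr'
  have gr' : InG r' := (gs.mul gc).mul gk.inv
  have hkinv : k⁻¹ = tP (-q) p (fun x => -a x) ha2.neg := by rw [hk, tP_inv]
  have r'_apply : ∀ x : S3, ((r' x : S3) : E4) = W (-q) p √2 (Rh (-q) p a x) := by
    intro x
    rw [hr', hkinv]
    rfl
  have r'_inv : r'⁻¹ = r' := by
    have e1 : r' * r' = 1 := by
      apply Equiv.ext
      intro x
      apply Subtype.ext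
      show ((r' (r' x) : S3) : E4) = x
      rw [r'_apply, r'_apply, Rh_W hpq ha1 ha2 _ (Rh_mem x.2), Rh_Rh hpq ha1 ha2 x.2, W_add,
        add_neg_cancel, W_zero]
    exact inv_eq_of_mul_eq_one_left e1
  -- conjugation of T_V by r'
  have iVr : InvS p q (fun x => V (W (-q) p √2 (Rh (-q) p a x))) := by
    have h1 : InvS p q (fun x => V (W (-q) p √2 x)) := by
      intro s x hx
      show V (W (-q) p √2 (Rot (p * s) (q * s) x)) = V (W (-q) p √2 x)
      rw [W_Rot, iV s _ (W_mem hx)]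
    exact InvS_Rh hpq ha1 ha2 h1
  have cV' : r' * (tP p q V iV)⁻¹ * r'⁻¹ = tP p q (fun x => V (W (-q) p √2 (Rh (-q) p a x))) iVr := by
    rw [tP_inv]
    apply conj_tP iV.neg r' (fun x => W (-q) p √2 (Rh (-q) p a x)) (-1) (by norm_num)
    · intro x
      rw [r'_inv]
      exact r'_apply x
    · intro s x hx
      show W (-q) p √2 (Rh (-q) p a (Rot (p * s) (q * s) x)) = _
      rw [Rh_Rot hpq ha1 ha2 _ _ hx, W_Rot]
      congr 1 <;> ring
    · intro x _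
      ring
  -- conjugation of T_U by c k⁻¹
  have iUr : InvS p q (fun x => U (Rh (-q) p a x)) := InvS_Rh hpq ha1 ha2 iU
  have hrho : ∀ x : S3, (((k * cP)⁻¹ x : S3) : E4) = Rh (-q) p a x := by
    intro x
    rw [mul_inv_rev, cP_inv, hkinv]
    rfl
  have cU' : (k * cP) * (tP p q U iU)⁻¹ * (k * cP)⁻¹ = tP p q (fun x => U (Rh (-q) p a x)) iUr := by
    rw [tP_inv]
    apply conj_tP iU.neg (k * cP) (Rh (-q) p a) (-1) (by norm_num) hrho
    · intro s x hx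
      rw [Rh_Rot hpq ha1 ha2 _ _ hx]
      congr 1 <;> ring
    · intro x _
      ring
  refine ⟨tP p q V iV, r', tP p q U iU * h, cP, gV, gr', gU.mul gh, gc, ?_⟩
  have eA : tP p q V iV * r' * (tP p q V iV)⁻¹ * r'⁻¹ =
      tP p q (fun x => V x + V (W (-q) p √2 (Rh (-q) p a x))) (iV.add iVr) := by
    rw [mul_assoc (tP p q V iV), mul_assoc (tP p q V iV), cV', tP_mul]
  have eB : (tP p q U iU * h) * cP * (tP p q U iU * h)⁻¹ * cP⁻¹ =
      tP p q (fun x => U x + U (Rh (-q) p a x)) (iU.add iUr) * k := by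
    have e1 : cP * h⁻¹ * cP⁻¹ = h := by
      have := congrArg (fun g => g⁻¹) hc
      simp only [mul_inv_rev, inv_inv] at this
      rw [← mul_assoc] at this
      exact this
    calc (tP p q U iU * h) * cP * (tP p q U iU * h)⁻¹ * cP⁻¹
        = tP p q U iU * h * (cP * h⁻¹ * cP⁻¹) * cP * (tP p q U iU)⁻¹ * cP⁻¹ := by group
      _ = tP p q U iU * ((k * cP) * (tP p q U iU)⁻¹ * (k * cP)⁻¹) * k := by
          rw [e1, mul_assoc (tP p q U iU) h h, hhk]
          group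
      _ = _ := by rw [cU', tP_mul]
  rw [eA, eB, ← mul_assoc, tP_mul]
  congr 1
  apply tP_congr
  intro x hx
  rw [hdec x hx]
  ring

end Pool.Agent.Work.MP_fe1501_h42
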