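import Pool.Agent.Work.MP_fe1501_h42.Rot

set_option autoImplicit false

open MeasureTheory Metric Set
open scoped ContDiff NNReal

namespace Pool.Agent.Work.MP_fe1501_h42

/-- The volume of the round 3-sphere, as a measure on `E4`. -/
noncomputable def nu : Measure E4 := (Measure.hausdorffMeasure (3 : ℝ) : Measure E4).restrict S3

/-- a parametrisation of the sphere by a box -/
noncomputable def Par (y : Fin 3 → ℝ) : E4 :=
  !₂[Real.cos (y 0) * Real.cos (y 1), Real.cos (y 0) * Real.sin (y 1),
    Real.sin (y 0) * Real.cos (y 2), Real.sin (y 0) * Real.sin (y 2)]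

theorem contDiff_Par : ContDiff ℝ ∞ Par := by
  have h (i : Fin 3) : ContDiff ℝ ∞ (fun y : Fin 3 → ℝ => y i) := contDiff_apply ℝ ℝ i
  exact contDiff_mk4 ((h 0).cos.mul (h 1).cos) ((h 0).cos.mul (h 1).sin)
    ((h 0).sin.mul (h 2).cos) ((h 0).sin.mul (h 2).sin)

/-- the box -/
def Box : Set (Fin 3 → ℝ) := Icc (fun _ => -Real.pi) (fun _ => Real.pi)

theorem lip_Par : ∃ C : ℝ≥0, LipschitzOnWith C Par Box := by
  have hc : IsCompact Box := isCompact_Icc
  have h1 : ContinuousOn (fun y => ‖fderiv ℝ Par y‖₊) Box :=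
    ((contDiff_Par.continuous_fderiv (by simp)).nnnorm).continuousOn
  obtain ⟨C, hC⟩ := (hc.image_of_continuousOn h1).bddAbove
  refine ⟨C, ?_⟩
  apply Convex.lipschitzOnWith_of_nnnorm_fderiv_le (𝕜 := ℝ) (f := Par) (s := Box)
    (fun x _ => (contDiff_Par.differentiable (by simp)) x) ?_ (convex_Icc _ _)
  intro x hx
  exact hC (mem_image_of_mem _ hx)

theorem S3_subset_Par : S3 ⊆ Par '' Box := by
  intro x hx
  rw [mem_S3] at hx
  have hn : x 0 ^ 2 + x 1 ^ 2 + x 2 ^ 2 + x 3 ^ 2 = 1 := by rw [← nsq, hx]; norm_num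
  set z : ℂ := ⟨x 0, x 1⟩ with hz
  set w : ℂ := ⟨x 2, x 3⟩ with hw
  have hz2 : ‖z‖ ^ 2 = x 0 ^ 2 + x 1 ^ 2 := by
    rw [← Complex.normSq_eq_norm_sq, Complex.normSq_apply]; simp [hz]; ring
  have hw2 : ‖w‖ ^ 2 = x 2 ^ 2 + x 3 ^ 2 := by
    rw [← Complex.normSq_eq_norm_sq, Complex.normSq_apply]; simp [hw]; ring
  have hz1 : ‖z‖ ≤ 1 := by
    nlinarith [norm_nonneg z, sq_nonneg (x 2), sq_nonneg (x 3)]
  have ha : Real.cos (Real.arccos ‖z‖) = ‖z‖ := Real.cos_arccos (by linarith [norm_nonneg z]) hz1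
  have hb : Real.sin (Real.arccos ‖z‖) = ‖w‖ := by
    rw [Real.sin_arccos]
    rw [show (1 : ℝ) - ‖z‖ ^ 2 = ‖w‖ ^ 2 by rw [hz2, hw2]; linarith]
    exact Real.sqrt_sq (norm_nonneg w)
  refine ⟨![Real.arccos ‖z‖, z.arg, w.arg], ?_, ?_⟩
  · constructor
    · intro i
      fin_cases i
      · have := Real.arccos_nonneg ‖z‖
        have := Real.pi_pos
        show -Real.pi ≤ Real.arccos ‖z‖
        linarith
      · exact (Complex.neg_pi_lt_arg z).le
      · exact (Complex.neg_pi_lt_arg w).le
    · intro i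
      fin_cases i
      · exact Real.arccos_le_pi _
      · exact Complex.arg_le_pi z
      · exact Complex.arg_le_pi w
  · apply ext4
    · show Real.cos (Real.arccos ‖z‖) * Real.cos z.arg = x 0
      rw [ha, Complex.norm_mul_cos_arg]
    · show Real.cos (Real.arccos ‖z‖) * Real.sin z.arg = x 1
      rw [ha, Complex.norm_mul_sin_arg]
    · show Real.sin (Real.arccos ‖z‖) * Real.cos w.arg = x 2
      rw [hb, Complex.norm_mul_cos_arg]
    · show Real.sin (Real.arccos ‖z‖) * Real.sin w.arg = x 3
      rw [hb, Complex.norm_mul_sin_arg]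

theorem hausdorff_S3_lt_top : (Measure.hausdorffMeasure (3 : ℝ) : Measure E4) S3 < ⊤ := by
  obtain ⟨C, hC⟩ := lip_Par
  have h1 := hC.hausdorffMeasure_image_le (d := 3) (by norm_num)
  have h2 : (Measure.hausdorffMeasure (3 : ℝ) : Measure (Fin 3 → ℝ)) Box < ⊤ := by
    have h3 := hausdorffMeasure_pi_real (ι := Fin 3)
    rw [Fintype.card_fin] at h3
    have h4 : (Measure.hausdorffMeasure (3 : ℝ) : Measure (Fin 3 → ℝ)) = volume := by
      rw [← h3]; norm_num
    rw [h4]
    exact isCompact_Icc.measure_lt_top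
  calc (Measure.hausdorffMeasure (3 : ℝ) : Measure E4) S3
      ≤ (Measure.hausdorffMeasure (3 : ℝ) : Measure E4) (Par '' Box) := measure_mono S3_subset_Par
    _ ≤ (C : ENNReal) ^ (3 : ℝ) * (Measure.hausdorffMeasure (3 : ℝ) : Measure (Fin 3 → ℝ)) Box := h1
    _ < ⊤ := ENNReal.mul_lt_top (ENNReal.rpow_lt_top_of_nonneg (by norm_num) (by simp)) h2

instance : IsFiniteMeasure nu := ⟨by
  rw [nu, Measure.restrict_apply_univ]
  exact hausdorff_S3_lt_top⟩

theorem meas_S3 : MeasurableSet S3 := isClosed_sphere.measurableSet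

theorem ae_S3 : ∀ᵐ x ∂nu, x ∈ S3 := ae_restrict_mem meas_S3

/-- an isometry that preserves the sphere preserves `nu` -/
theorem mp_of_isometry (e : E4 ≃ᵢ E4) (he : ∀ x, ‖e x‖ = ‖x‖) : MeasurePreserving e nu nu := by
  have h1 := (e.measurePreserving_hausdorffMeasure 3).restrict_preimage meas_S3
  have h2 : e ⁻¹' S3 = S3 := by
    ext x
    rw [mem_preimage, mem_S3, mem_S3, he]
  rw [h2] at h1
  exact h1

theorem mp_Rot (α β : ℝ) : MeasurePreserving (Rot α β) nu nu :=
  mp_of_isometry (RotI α β) (fun x => norm_Rot α β x)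

theorem mp_Pth (t : ℝ) : MeasurePreserving (Pth t) nu nu :=
  mp_of_isometry (PthI t) (fun x => norm_Pth t x)

/-- `u` is invariant, on the sphere, under the circle action with weights `m, n`. -/
def InvS (m n : ℤ) (u : E4 → ℝ) : Prop :=
  ∀ s : ℝ, ∀ x ∈ S3, u (Rot (m * s) (n * s) x) = u x

/-- Move every point `x` along its orbit under the circle action with weights `m, n`,
by the angle `u x`. -/
noncomputable def Tw (m n : ℤ) (u : E4 → ℝ) (x : E4) : E4 := Rot (m * u x) (n * u x) x

theorem Tw_mem {m n : ℤ} {u : E4 → ℝ} {x : E4} (h : x ∈ S3) : Tw m n u x ∈ S3 := Rot_mem h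

theorem continuous_Rot {X : Type*} [TopologicalSpace X] {a b : X → ℝ} {g : X → E4}
    (ha : Continuous a) (hb : Continuous b) (hg : Continuous g) :
    Continuous (fun y => Rot (a y) (b y) (g y)) := by
  have h : Continuous (fun q : (ℝ × ℝ) × E4 => Rot q.1.1 q.1.2 q.2) :=
    (contDiff_Rot (contDiff_fst.fst) (contDiff_fst.snd) contDiff_snd).continuous
  exact h.comp ((ha.prodMk hb).prodMk hg)

theorem mp_Tw (m n : ℤ) {u : E4 → ℝ} (hu : Continuous u) (hinv : InvS m n u) :
    MeasurePreserving (Tw m n u) nu nu := by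
  have hc : Continuous (Tw m n u) :=
    continuous_Rot (continuous_const.mul hu) (continuous_const.mul hu) continuous_id
  refine ⟨hc.measurable, ?_⟩
  ext A hA
  rw [Measure.map_apply hc.measurable hA]
  have key : nu.real (Tw m n u ⁻¹' A) = nu.real A := by
    set g : E4 → ℝ := A.indicator (fun _ => (1 : ℝ)) with hg
    have hgm : Measurable g := measurable_const.indicator hA
    have hgb : ∀ x, ‖g x‖ ≤ 1 := by
      intro x
      by_cases hx : x ∈ A
      · simp [hg, hx]
      · simp [hg, hx]
    have hI (s : ℝ) : ∫ x, g (Rot (m * (u x + s)) (n * (u x + s)) x) ∂nu =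
        nu.real (Tw m n u ⁻¹' A) := by
      have h1 : ∫ x, g (Tw m n u x) ∂nu = nu.real (Tw m n u ⁻¹' A) := by
        have h2 : (fun x => g (Tw m n u x)) = (Tw m n u ⁻¹' A).indicator (fun _ => (1 : ℝ)) := by
          ext x
          by_cases hx : Tw m n u x ∈ A
          · rw [indicator_of_mem (show x ∈ Tw m n u ⁻¹' A from hx), hg, indicator_of_mem hx]
          · rw [indicator_of_notMem (show x ∉ Tw m n u ⁻¹' A from hx), hg,
              indicator_of_notMem hx]
        rw [h2, integral_indicator_const _ (hc.measurable hA)]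
        simp
      have h3 := (mp_Rot (m * s) (n * s)).integral_comp'
        (f := (RotI (m * s) (n * s)).toHomeomorph.toMeasurableEquiv) (fun x => g (Tw m n u x))
      rw [← h1, ← h3]
      apply integral_congr_ae
      filter_upwards [ae_S3] with x hx
      show g (Rot (m * (u x + s)) (n * (u x + s)) x) = g (Tw m n u (Rot (m * s) (n * s) x))
      rw [Tw, hinv s x hx, Rot_Rot, mul_add, mul_add]
    have hper (x : E4) : Function.Periodic (fun s => g (Rot (m * s) (n * s) x)) (2 * Real.pi) := by
      intro s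
      show g (Rot (m * (s + 2 * Real.pi)) (n * (s + 2 * Real.pi)) x) = g (Rot (m * s) (n * s) x)
      rw [mul_add, mul_add, Rot_period]
    have hint (a : E4 → ℝ) (ha : Continuous a) :
        Integrable (Function.uncurry fun (s : ℝ) (x : E4) =>
          g (Rot (m * (a x + s)) (n * (a x + s)) x))
          ((volume.restrict (Set.uIoc 0 (2 * Real.pi))).prod nu) := by
      have hm : Measurable (Function.uncurry fun (s : ℝ) (x : E4) =>
          g (Rot (m * (a x + s)) (n * (a x + s)) x)) := by
        apply hgm.comp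
        apply Continuous.measurable
        have h1 : Continuous (fun y : ℝ × E4 => a y.2 + y.1) :=
          (ha.comp continuous_snd).add continuous_fst
        exact continuous_Rot (continuous_const.mul h1) (continuous_const.mul h1) continuous_snd
      haveI : IsFiniteMeasure (volume.restrict (Set.uIoc 0 (2 * Real.pi))) := ⟨by
        rw [Measure.restrict_apply_univ, Set.uIoc]
        exact measure_Ioc_lt_top⟩
      exact Integrable.of_bound hm.aestronglyMeasurable 1 (Filter.Eventually.of_forall fun y => hgb _)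
    have h3 : ∫ s in (0 : ℝ)..(2 * Real.pi), ∫ x, g (Rot (m * (u x + s)) (n * (u x + s)) x) ∂nu =
        ∫ x, (∫ s in (0 : ℝ)..(2 * Real.pi), g (Rot (m * (u x + s)) (n * (u x + s)) x)) ∂nu :=
      intervalIntegral_integral_swap (hint u hu)
    have h4 : ∫ s in (0 : ℝ)..(2 * Real.pi), ∫ x, g (Rot (m * (0 + s)) (n * (0 + s)) x) ∂nu =
        ∫ x, (∫ s in (0 : ℝ)..(2 * Real.pi), g (Rot (m * (0 + s)) (n * (0 + s)) x)) ∂nu :=
      intervalIntegral_integral_swap (hint (fun _ => 0) continuous_const)
    have h5 (x : E4) : ∫ s in (0 : ℝ)..(2 * Real.pi), g (Rot (m * (u x + s)) (n * (u x + s)) x) =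
        ∫ s in (0 : ℝ)..(2 * Real.pi), g (Rot (m * (0 + s)) (n * (0 + s)) x) := by
      rw [intervalIntegral.integral_comp_add_left
        (fun s => g (Rot (m * s) (n * s) x)) (u x)]
      simp only [zero_add]
      have := (hper x).intervalIntegral_add_eq (u x + 0) 0
      rw [zero_add] at this
      rw [← this]
      congr 1
      ring
    have h6 : ∫ s in (0 : ℝ)..(2 * Real.pi), ∫ x, g (Rot (m * (0 + s)) (n * (0 + s)) x) ∂nu =
        2 * Real.pi * nu.real A := by
      have h7 (s : ℝ) : ∫ x, g (Rot (m * (0 + s)) (n * (0 + s)) x) ∂nu = nu.real A := by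
        rw [zero_add]
        have := (mp_Rot (m * s) (n * s)).integral_comp'
          (f := (RotI (m * s) (n * s)).toHomeomorph.toMeasurableEquiv) g
        calc ∫ x, g (Rot (m * s) (n * s) x) ∂nu = ∫ x, g x ∂nu := this
          _ = nu.real A := by
            rw [hg, integral_indicator_const _ hA]
            simp
      simp only [h7]
      rw [intervalIntegral.integral_const]
      simp
    simp only [hI] at h3
    rw [intervalIntegral.integral_const] at h3
    simp only [h5] at h3
    rw [← h4, h6] at h3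
    simp only [sub_zero, smul_eq_mul] at h3
    exact mul_left_cancel₀ (by positivity) h3
  have h8 := congrArg ENNReal.ofReal key
  rwa [ofReal_measureReal, ofReal_measureReal] at h8

end Pool.Agent.Work.MP_fe1501_h42
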