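import Mathlib

set_option autoImplicit false

open MeasureTheory Metric Set
open scoped ContDiff

namespace Pool.Agent.Work.MP_fe1501_h42

/-- Euclidean 4-space, regarded as `ℂ²` with coordinates `z = x₀ + i x₁`, `w = x₂ + i x₃`. -/
abbrev E4 : Type := EuclideanSpace ℝ (Fin 4)

/-- The round 3-sphere. -/
abbrev S3 : Set E4 := sphere (0 : E4) 1

/-- `(z, w) ↦ (e^{iα} z, e^{iβ} w)`. -/
noncomputable def Rot (α β : ℝ) (x : E4) : E4 :=
  !₂[Real.cos α * x 0 - Real.sin α * x 1, Real.sin α * x 0 + Real.cos α * x 1,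
    Real.cos β * x 2 - Real.sin β * x 3, Real.sin β * x 2 + Real.cos β * x 3]

/-- `(z, w) ↦ (conj z, conj w)`. -/
noncomputable def Cj (x : E4) : E4 := !₂[x 0, -x 1, x 2, -x 3]

/-- The path from the identity to `Cj`: rotation by `t` in the plane `(x₁, x₃)`. -/
noncomputable def Pth (t : ℝ) (x : E4) : E4 :=
  !₂[x 0, Real.cos t * x 1 - Real.sin t * x 3, x 2, Real.sin t * x 1 + Real.cos t * x 3]

@[simp] theorem Rot_0 (α β : ℝ) (x : E4) : Rot α β x 0 = Real.cos α * x 0 - Real.sin α * x 1 := rfl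
@[simp] theorem Rot_1 (α β : ℝ) (x : E4) : Rot α β x 1 = Real.sin α * x 0 + Real.cos α * x 1 := rfl
@[simp] theorem Rot_2 (α β : ℝ) (x : E4) : Rot α β x 2 = Real.cos β * x 2 - Real.sin β * x 3 := rfl
@[simp] theorem Rot_3 (α β : ℝ) (x : E4) : Rot α β x 3 = Real.sin β * x 2 + Real.cos β * x 3 := rfl
@[simp] theorem Cj_0 (x : E4) : Cj x 0 = x 0 := rfl
@[simp] theorem Cj_1 (x : E4) : Cj x 1 = -x 1 := rfl
@[simp] theorem Cj_2 (x : E4) : Cj x 2 = x 2 := rfl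
@[simp] theorem Cj_3 (x : E4) : Cj x 3 = -x 3 := rfl
@[simp] theorem Pth_0 (t : ℝ) (x : E4) : Pth t x 0 = x 0 := rfl
@[simp] theorem Pth_1 (t : ℝ) (x : E4) : Pth t x 1 = Real.cos t * x 1 - Real.sin t * x 3 := rfl
@[simp] theorem Pth_2 (t : ℝ) (x : E4) : Pth t x 2 = x 2 := rfl
@[simp] theorem Pth_3 (t : ℝ) (x : E4) : Pth t x 3 = Real.sin t * x 1 + Real.cos t * x 3 := rfl

theorem ext4 {x y : E4} (h0 : x 0 = y 0) (h1 : x 1 = y 1) (h2 : x 2 = y 2) (h3 : x 3 = y 3) :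
    x = y := by
  ext i
  fin_cases i
  · exact h0
  · exact h1
  · exact h2
  · exact h3

theorem nsq (x : E4) : ‖x‖ ^ 2 = x 0 ^ 2 + x 1 ^ 2 + x 2 ^ 2 + x 3 ^ 2 := by
  rw [EuclideanSpace.norm_sq_eq, Fin.sum_univ_four]
  simp only [Real.norm_eq_abs, sq_abs]

theorem norm_eq_of {x y : E4}
    (h : x 0 ^ 2 + x 1 ^ 2 + x 2 ^ 2 + x 3 ^ 2 = y 0 ^ 2 + y 1 ^ 2 + y 2 ^ 2 + y 3 ^ 2) :
    ‖x‖ = ‖y‖ := by
  rw [← sq_eq_sq₀ (norm_nonneg _) (norm_nonneg _), nsq, nsq]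
  exact h

theorem Rot_zero (x : E4) : Rot 0 0 x = x := by
  apply ext4 <;> simp

theorem Rot_Rot (α β α' β' : ℝ) (x : E4) :
    Rot α β (Rot α' β' x) = Rot (α + α') (β + β') x := by
  apply ext4 <;> simp only [Rot_0, Rot_1, Rot_2, Rot_3, Real.cos_add, Real.sin_add] <;> ring

theorem Rot_period (α β : ℝ) (m n : ℤ) (x : E4) :
    Rot (α + m * (2 * Real.pi)) (β + n * (2 * Real.pi)) x = Rot α β x := by
  apply ext4 <;> simp [Real.cos_add_int_mul_two_pi, Real.sin_add_int_mul_two_pi]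

theorem Cj_Cj (x : E4) : Cj (Cj x) = x := by
  apply ext4 <;> simp

theorem Cj_Rot (α β : ℝ) (x : E4) : Cj (Rot α β x) = Rot (-α) (-β) (Cj x) := by
  apply ext4 <;> simp <;> ring

theorem Pth_zero (x : E4) : Pth 0 x = x := by
  apply ext4 <;> simp

theorem Pth_pi (x : E4) : Pth Real.pi x = Cj x := by
  apply ext4 <;> simp

theorem Pth_Pth (s t : ℝ) (x : E4) : Pth s (Pth t x) = Pth (s + t) x := by
  apply ext4 <;> simp only [Pth_0, Pth_1, Pth_2, Pth_3, Real.cos_add, Real.sin_add] <;> ring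

theorem norm_Rot (α β : ℝ) (x : E4) : ‖Rot α β x‖ = ‖x‖ := by
  apply norm_eq_of
  simp only [Rot_0, Rot_1, Rot_2, Rot_3]
  linear_combination (x 0 ^ 2 + x 1 ^ 2) * Real.sin_sq_add_cos_sq α +
    (x 2 ^ 2 + x 3 ^ 2) * Real.sin_sq_add_cos_sq β

theorem norm_Cj (x : E4) : ‖Cj x‖ = ‖x‖ := by
  apply norm_eq_of
  simp only [Cj_0, Cj_1, Cj_2, Cj_3]
  ring

theorem norm_Pth (t : ℝ) (x : E4) : ‖Pth t x‖ = ‖x‖ := by
  apply norm_eq_of
  simp only [Pth_0, Pth_1, Pth_2, Pth_3]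
  linear_combination (x 1 ^ 2 + x 3 ^ 2) * Real.sin_sq_add_cos_sq t

theorem mem_S3 {x : E4} : x ∈ S3 ↔ ‖x‖ = 1 := mem_sphere_zero_iff_norm

theorem Rot_mem {α β : ℝ} {x : E4} (h : x ∈ S3) : Rot α β x ∈ S3 := by
  rw [mem_S3] at h ⊢; rw [norm_Rot, h]

theorem Cj_mem {x : E4} (h : x ∈ S3) : Cj x ∈ S3 := by
  rw [mem_S3] at h ⊢; rw [norm_Cj, h]

theorem Pth_mem {t : ℝ} {x : E4} (h : x ∈ S3) : Pth t x ∈ S3 := by
  rw [mem_S3] at h ⊢; rw [norm_Pth, h]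

theorem Rot_sub (α β : ℝ) (x y : E4) : Rot α β x - Rot α β y = Rot α β (x - y) := by
  apply ext4 <;> simp <;> ring

theorem Cj_sub (x y : E4) : Cj x - Cj y = Cj (x - y) := by
  apply ext4 <;> simp <;> ring

theorem Pth_sub (t : ℝ) (x y : E4) : Pth t x - Pth t y = Pth t (x - y) := by
  apply ext4 <;> simp <;> ring

/-- the coordinates are smooth -/
theorem contDiff_coord (i : Fin 4) : ContDiff ℝ ∞ (fun x : E4 => x i) :=
  (EuclideanSpace.proj i : E4 →L[ℝ] ℝ).contDiff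

theorem contDiff_mk4 {X : Type*} [NormedAddCommGroup X] [NormedSpace ℝ X] {a b c d : X → ℝ}
    (ha : ContDiff ℝ ∞ a) (hb : ContDiff ℝ ∞ b) (hc : ContDiff ℝ ∞ c) (hd : ContDiff ℝ ∞ d) :
    ContDiff ℝ ∞ (fun y => (!₂[a y, b y, c y, d y] : E4)) := by
  rw [contDiff_euclidean]
  intro i
  fin_cases i
  · exact ha
  · exact hb
  · exact hc
  · exact hd

theorem contDiff_Rot {X : Type*} [NormedAddCommGroup X] [NormedSpace ℝ X] {a b : X → ℝ}
    {g : X → E4} (ha : ContDiff ℝ ∞ a) (hb : ContDiff ℝ ∞ b) (hg : ContDiff ℝ ∞ g) :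
    ContDiff ℝ ∞ (fun y => Rot (a y) (b y) (g y)) := by
  have h0 := (contDiff_coord 0).comp hg
  have h1 := (contDiff_coord 1).comp hg
  have h2 := (contDiff_coord 2).comp hg
  have h3 := (contDiff_coord 3).comp hg
  exact contDiff_mk4 ((ha.cos.mul h0).sub (ha.sin.mul h1)) ((ha.sin.mul h0).add (ha.cos.mul h1))
    ((hb.cos.mul h2).sub (hb.sin.mul h3)) ((hb.sin.mul h2).add (hb.cos.mul h3))

theorem contDiff_Cj {X : Type*} [NormedAddCommGroup X] [NormedSpace ℝ X]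
    {g : X → E4} (hg : ContDiff ℝ ∞ g) : ContDiff ℝ ∞ (fun y => Cj (g y)) := by
  have h0 := (contDiff_coord 0).comp hg
  have h1 := (contDiff_coord 1).comp hg
  have h2 := (contDiff_coord 2).comp hg
  have h3 := (contDiff_coord 3).comp hg
  exact contDiff_mk4 h0 h1.neg h2 h3.neg

theorem contDiff_Pth {X : Type*} [NormedAddCommGroup X] [NormedSpace ℝ X] {a : X → ℝ}
    {g : X → E4} (ha : ContDiff ℝ ∞ a) (hg : ContDiff ℝ ∞ g) :
    ContDiff ℝ ∞ (fun y => Pth (a y) (g y)) := by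
  have h0 := (contDiff_coord 0).comp hg
  have h1 := (contDiff_coord 1).comp hg
  have h2 := (contDiff_coord 2).comp hg
  have h3 := (contDiff_coord 3).comp hg
  exact contDiff_mk4 h0 ((ha.cos.mul h1).sub (ha.sin.mul h3)) h2
    ((ha.sin.mul h1).add (ha.cos.mul h3))

/-- the isometry equivalence `Rot α β` -/
noncomputable def RotI (α β : ℝ) : E4 ≃ᵢ E4 where
  toFun := Rot α β
  invFun := Rot (-α) (-β)
  left_inv x := by rw [Rot_Rot, neg_add_cancel, neg_add_cancel, Rot_zero]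
  right_inv x := by rw [Rot_Rot, add_neg_cancel, add_neg_cancel, Rot_zero]
  isometry_toFun := Isometry.of_dist_eq fun x y => by
    rw [dist_eq_norm, dist_eq_norm, Rot_sub, norm_Rot]

/-- the isometry equivalence `Pth t` -/
noncomputable def PthI (t : ℝ) : E4 ≃ᵢ E4 where
  toFun := Pth t
  invFun := Pth (-t)
  left_inv x := by rw [Pth_Pth, neg_add_cancel, Pth_zero]
  right_inv x := by rw [Pth_Pth, add_neg_cancel, Pth_zero]
  isometry_toFun := Isometry.of_dist_eq fun x y => by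
    rw [dist_eq_norm, dist_eq_norm, Pth_sub, norm_Pth]

end Pool.Agent.Work.MP_fe1501_h42
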